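import Pool.Agent.P.MP_417dd2_co.H.Up

/-!
The least number of nonzero entries of a reducible spectrally arbitrary zero-nonzero pattern of
order `n` over the reals is `11 n / 6` up to a bounded error.
-/

namespace Pool.Agent.Results.MP_417dd2_co.ElevenSixths

/-- Every monic real polynomial of degree `n` is the characteristic polynomial of a real matrix
that is nonzero exactly in the positions marked `true`. -/
def SpectrallyArbitrary {n : ℕ} (Z : Matrix (Fin n) (Fin n) Bool) : Prop :=
  ∀ p : Polynomial ℝ, p.Monic → p.natDegree = n →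
    ∃ A : Matrix (Fin n) (Fin n) ℝ, (∀ i j, (A i j ≠ 0 ↔ Z i j = true)) ∧ A.charpoly = p

/-- After a simultaneous permutation of rows and columns the pattern is block upper triangular
with two nonempty diagonal blocks, indexed by `T` and its complement. -/
def Reducible {n : ℕ} (Z : Matrix (Fin n) (Fin n) Bool) : Prop :=
  ∃ T : Finset (Fin n), T.Nonempty ∧ T ≠ Finset.univ ∧ ∀ i, i ∉ T → ∀ j, j ∈ T → Z i j = false

/-- The number of nonzero entries. -/
def entries {n : ℕ} (Z : Matrix (Fin n) (Fin n) Bool) : ℕ :=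
  (Finset.univ.filter fun q : Fin n × Fin n => Z q.1 q.2 = true).card

open Pool.Agent.P.MP_417dd2_co in
theorem result (n : ℕ) (hn : 10 ≤ n) :
    ∃ m : ℕ, IsLeast {k | ∃ Z : Matrix (Fin n) (Fin n) Bool,
        Reducible Z ∧ SpectrallyArbitrary Z ∧ entries Z = k} m ∧
      2 * n - (n + 1) / 6 ≤ m ∧ m ≤ 2 * n - (n - 10) / 6 := by
  obtain ⟨Z, h1, h2, h3⟩ := H.upper n (by omega)
  have hZ : entries Z ∈ {k | ∃ Z : Matrix (Fin n) (Fin n) Bool,
      Reducible Z ∧ SpectrallyArbitrary Z ∧ entries Z = k} := ⟨Z, h3 (by omega), h1, rfl⟩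
  have hm := Nat.sInf_mem ⟨_, hZ⟩
  refine ⟨_, ⟨hm, fun k hk => Nat.sInf_le hk⟩, ?_, ?_⟩
  · obtain ⟨W, -, hW, e⟩ := hm
    have : 11 * n ≤ 6 * entries W + n % 2 := H.lower_bound hW
    omega
  · have h4 := Nat.sInf_le hZ
    have h5 : entries Z + (n - 10) / 6 = 2 * n := h2
    omega

end Pool.Agent.Results.MP_417dd2_co.ElevenSixths
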